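import Pool.Agent.H2.ISO.Trace

set_option autoImplicit false
set_option linter.unusedSectionVars false

namespace Pool.Agent.H2.ISO

open Matrix

variable {ι : Type} [Fintype ι] [DecidableEq ι] {d : ℕ}

structure Cfg (k : ℕ) (α : ℝ) (P : ι → Matrix (Fin d) (Fin d) ℝ) (u : Fin d → ℝ) : Prop where
  symm : ∀ i, (P i)ᵀ = P i
  idem : ∀ i, P i * P i = P i
  tr : ∀ i, (P i).trace = k
  rel : ∀ i j, i ≠ j → P i * P j * P i = α ^ 2 • P i
  uu : u ⬝ᵥ u = 1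
  uP : ∀ i, u ⬝ᵥ (P i *ᵥ u) = α ^ 2

variable {k : ℕ} {α : ℝ} {P : ι → Matrix (Fin d) (Fin d) ℝ} {u : Fin d → ℝ}

lemma dot_self_nonneg (x : Fin d → ℝ) : 0 ≤ x ⬝ᵥ x := by
  simp only [dotProduct]
  exact Finset.sum_nonneg fun i _ => mul_self_nonneg _

lemma cs (x y : Fin d → ℝ) : (x ⬝ᵥ y) ^ 2 ≤ (x ⬝ᵥ x) * (y ⬝ᵥ y) := by
  have := Finset.sum_mul_sq_le_sq_mul_sq Finset.univ x y
  simpa only [dotProduct, sq] using this

lemma csHS (Y : Matrix (Fin d) (Fin d) ℝ) (u x : Fin d → ℝ) :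
    (u ⬝ᵥ (Y *ᵥ x)) ^ 2 ≤ (u ⬝ᵥ u) * (x ⬝ᵥ x) * (Y * Yᵀ).trace := by
  have h := Finset.sum_mul_sq_le_sq_mul_sq (Finset.univ : Finset (Fin d × Fin d))
    (fun p => u p.1 * x p.2) (fun p => Y p.1 p.2)
  have e1 : u ⬝ᵥ (Y *ᵥ x) = ∑ p : Fin d × Fin d, u p.1 * x p.2 * Y p.1 p.2 := by
    rw [Fintype.sum_prod_type]
    simp only [dotProduct, Matrix.mulVec, Finset.mul_sum]
    exact Finset.sum_congr rfl fun a _ => Finset.sum_congr rfl fun b _ => by ring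
  have e2 : ∑ p : Fin d × Fin d, (u p.1 * x p.2) ^ 2 = (u ⬝ᵥ u) * (x ⬝ᵥ x) := by
    rw [Fintype.sum_prod_type]
    simp only [dotProduct, Finset.sum_mul_sum]
    exact Finset.sum_congr rfl fun a _ => Finset.sum_congr rfl fun b _ => by ring
  have e3 : ∑ p : Fin d × Fin d, (Y p.1 p.2) ^ 2 = (Y * Yᵀ).trace := by
    rw [Fintype.sum_prod_type]
    simp only [Matrix.trace, Matrix.diag, Matrix.mul_apply, Matrix.transpose_apply]
    exact Finset.sum_congr rfl fun a _ => Finset.sum_congr rfl fun b _ => by ring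
  rw [e1]
  rw [e2, e3] at h
  exact h

namespace Cfg

lemma dotP (h : Cfg k α P u) (i : ι) (x y : Fin d → ℝ) :
    (P i *ᵥ x) ⬝ᵥ y = x ⬝ᵥ (P i *ᵥ y) := by
  rw [Matrix.dotProduct_mulVec, ← Matrix.mulVec_transpose, h.symm]

lemma PP (h : Cfg k α P u) (i : ι) (x : Fin d → ℝ) : P i *ᵥ (P i *ᵥ x) = P i *ᵥ x := by
  rw [Matrix.mulVec_mulVec, h.idem]

lemma PPP (h : Cfg k α P u) {i j : ι} (hij : i ≠ j) (x : Fin d → ℝ) :
    P i *ᵥ (P j *ᵥ (P i *ᵥ x)) = α ^ 2 • (P i *ᵥ x) := by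
  rw [Matrix.mulVec_mulVec, Matrix.mulVec_mulVec, h.rel i j hij, Matrix.smul_mulVec]

lemma trPP (h : Cfg k α P u) {i j : ι} (hij : i ≠ j) : (P i * P j).trace = α ^ 2 * k := by
  have h1 := congrArg Matrix.trace (h.rel i j hij)
  rw [Matrix.trace_mul_comm, ← Matrix.mul_assoc, h.idem, Matrix.trace_smul, h.tr, smul_eq_mul] at h1
  exact h1

/-- the unit vectors `v i ∈ U i` -/
noncomputable def v (_ : Cfg k α P u) (i : ι) : Fin d → ℝ := α⁻¹ • (P i *ᵥ u)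

lemma v_def (h : Cfg k α P u) (i : ι) : h.v i = α⁻¹ • (P i *ᵥ u) := rfl

lemma Pv (h : Cfg k α P u) (i : ι) : P i *ᵥ h.v i = h.v i := by
  rw [v_def, Matrix.mulVec_smul, h.PP]

lemma vv (h : Cfg k α P u) (hα : 0 < α) (i : ι) : h.v i ⬝ᵥ h.v i = 1 := by
  rw [v_def, smul_dotProduct, dotProduct_smul, h.dotP, h.PP, h.uP, smul_eq_mul, smul_eq_mul]
  field_simp

lemma Pvv (h : Cfg k α P u) (hα : 0 < α) {i j : ι} (hij : i ≠ j) :
    (P j *ᵥ h.v i) ⬝ᵥ (P j *ᵥ h.v i) = α ^ 2 := by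
  rw [h.dotP, h.PP]
  conv_lhs => rw [← h.Pv i]
  rw [h.dotP, h.PPP hij, dotProduct_smul, h.Pv, h.vv hα, smul_eq_mul, mul_one]

lemma vle (h : Cfg k α P u) (hα : 0 < α) {i j : ι} (hij : i ≠ j) : h.v i ⬝ᵥ h.v j ≤ α := by
  have h1 : h.v i ⬝ᵥ h.v j = h.v i ⬝ᵥ (P i *ᵥ h.v j) := by
    conv_lhs => rw [← h.Pv i]
    rw [h.dotP]
  have h2 := cs (h.v i) (P i *ᵥ h.v j)
  rw [← h1, h.vv hα, h.Pvv hα hij.symm, one_mul] at h2
  exact abs_le_of_sq_le_sq' h2 hα.le |>.2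

/-- the mean vector -/
noncomputable def w (h : Cfg k α P u) : Fin d → ℝ := (Fintype.card ι : ℝ)⁻¹ • ∑ i, h.v i

variable [Nonempty ι]

lemma nw (h : Cfg k α P u) : (Fintype.card ι : ℝ) • h.w = ∑ i, h.v i := by
  have : (Fintype.card ι : ℝ) ≠ 0 := by exact_mod_cast Fintype.card_ne_zero
  rw [w, smul_smul, mul_inv_cancel₀ this, one_smul]

lemma sum_z (h : Cfg k α P u) : ∑ i, (h.v i - h.w) = 0 := by
  rw [Finset.sum_sub_distrib, Finset.sum_const, Finset.card_univ, ← h.nw,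
    ← Nat.cast_smul_eq_nsmul ℝ, sub_self]

lemma lemA (h : Cfg k α P u) (hα : 0 < α) (x : Fin d → ℝ) :
    α ^ 2 * ∑ i, ((h.v i - h.w) ⬝ᵥ x) ^ 2 ≤ k * (1 - α ^ 2) * (x ⬝ᵥ x) := by
  obtain ⟨b, hb⟩ : ∃ b : ι → ℝ, b = fun i => (h.v i - h.w) ⬝ᵥ x := ⟨_, rfl⟩
  have hb0 : ∑ i, b i = 0 := by
    have : ∑ i, b i = (∑ i, (h.v i - h.w)) ⬝ᵥ x := by
      rw [hb, sum_dotProduct]
    rw [this, h.sum_z, zero_dotProduct]
  obtain ⟨S, hS⟩ : ∃ S, S = ∑ i, (b i) ^ 2 := ⟨_, rfl⟩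
  have hS0 : 0 ≤ S := hS ▸ Finset.sum_nonneg fun i _ => sq_nonneg _
  obtain ⟨Y, hY⟩ : ∃ Y : Matrix (Fin d) (Fin d) ℝ, Y = ∑ i, b i • P i := ⟨_, rfl⟩
  have hY1 : u ⬝ᵥ (Y *ᵥ x) = α * S := by
    rw [hY, Matrix.sum_mulVec, dotProduct_sum, hS, Finset.mul_sum]
    have e1 : ∀ i, u ⬝ᵥ ((b i • P i) *ᵥ x) = α * b i ^ 2 + α * (h.w ⬝ᵥ x) * b i := by
      intro i
      have : b i = α⁻¹ * (u ⬝ᵥ (P i *ᵥ x)) - h.w ⬝ᵥ x := by
        rw [hb]
        show (h.v i - h.w) ⬝ᵥ x = _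
        rw [sub_dotProduct, v_def, smul_dotProduct, h.dotP, smul_eq_mul]
      have h2 : u ⬝ᵥ (P i *ᵥ x) = α * (b i + h.w ⬝ᵥ x) := by
        rw [this]
        field_simp
        ring
      rw [Matrix.smul_mulVec, dotProduct_smul, h2, smul_eq_mul]
      ring
    rw [Finset.sum_congr rfl fun i _ => e1 i, Finset.sum_add_distrib, ← Finset.mul_sum,
      ← Finset.mul_sum, hb0]
    ring
  have hY2 : (Y * Yᵀ).trace = k * (1 - α ^ 2) * S := by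
    rw [hY, Matrix.transpose_sum]
    simp only [Matrix.transpose_smul, h.symm]
    rw [Matrix.sum_mul, Matrix.trace_sum]
    have e1 : ∀ i, (b i • P i * ∑ j, b j • P j).trace =
        b i * (α ^ 2 * k) * (∑ j, b j) + k * (1 - α ^ 2) * b i ^ 2 := by
      intro i
      rw [Matrix.mul_sum, Matrix.trace_sum]
      have e2 : ∀ j, (b i • P i * b j • P j).trace = b i * (α ^ 2 * k) * b j +
          if i = j then k * (1 - α ^ 2) * (b i * b j) else 0 := by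
        intro j
        rw [Matrix.smul_mul, Matrix.mul_smul, Matrix.trace_smul, Matrix.trace_smul, smul_eq_mul,
          smul_eq_mul]
        by_cases hij : i = j
        · subst hij
          rw [h.idem, h.tr, if_pos rfl]
          ring
        · rw [h.trPP hij, if_neg hij]
          ring
      rw [Finset.sum_congr rfl fun j _ => e2 j, Finset.sum_add_distrib, ← Finset.mul_sum]
      simp only [Finset.sum_ite_eq, Finset.mem_univ, if_true]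
      ring
    rw [Finset.sum_congr rfl fun j _ => e1 j, hb0]
    simp only [mul_zero, zero_add]
    rw [← Finset.mul_sum, hS]
  have hcs := csHS Y u x
  rw [hY1, hY2, h.uu, one_mul] at hcs
  have goal : α ^ 2 * S ≤ k * (1 - α ^ 2) * (x ⬝ᵥ x) := by
    by_cases hSz : S = 0
    · rw [hSz, mul_zero]
      rw [hSz] at hcs hY2
      have h1 := dot_self_nonneg x
      -- `1 - α^2 ≥ 0` since `α^2 = u ⬝ P u ≤ 1`
      obtain ⟨i⟩ := ‹Nonempty ι›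
      have h2 := cs u (P i *ᵥ u)
      rw [h.uP, h.uu, h.dotP, h.PP, h.uP, one_mul] at h2
      have h3 : α ^ 2 ≤ 1 := by nlinarith [sq_nonneg α, sq_nonneg (α ^ 2)]
      have h4 : (0:ℝ) ≤ k := Nat.cast_nonneg k
      have h5 : 0 ≤ 1 - α ^ 2 := by linarith
      positivity
    · have hSpos : 0 < S := lt_of_le_of_ne hS0 (Ne.symm hSz)
      have : S * (α ^ 2 * S) ≤ S * (k * (1 - α ^ 2) * (x ⬝ᵥ x)) := by nlinarith
      exact le_of_mul_le_mul_left this hSpos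
  rw [hS, hb] at goal
  exact goal

/-- `α ^ 2 ∑ ‖P_j z_l‖² ≤ k² (1 - α²)` -/
lemma lemA' (h : Cfg k α P u) (hα : 0 < α) (j : ι) :
    α ^ 2 * ∑ i, ((P j *ᵥ (h.v i - h.w)) ⬝ᵥ (P j *ᵥ (h.v i - h.w))) ≤ k * (1 - α ^ 2) * k := by
  have e1 : ∑ i, ((P j *ᵥ (h.v i - h.w)) ⬝ᵥ (P j *ᵥ (h.v i - h.w))) =
      ∑ a, ∑ i, ((h.v i - h.w) ⬝ᵥ (P j a)) ^ 2 := by
    rw [Finset.sum_comm]
    refine Finset.sum_congr rfl fun i _ => ?_
    rw [dotProduct]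
    refine Finset.sum_congr rfl fun a _ => ?_
    rw [sq, Matrix.mulVec, dotProduct_comm]
  rw [e1, Finset.mul_sum]
  calc ∑ a, α ^ 2 * ∑ i, ((h.v i - h.w) ⬝ᵥ (P j a)) ^ 2 ≤
      ∑ a, k * (1 - α ^ 2) * (P j a ⬝ᵥ P j a) := Finset.sum_le_sum fun a _ => h.lemA hα _
    _ = k * (1 - α ^ 2) * ∑ a, (P j a ⬝ᵥ P j a) := by rw [Finset.mul_sum]
    _ = k * (1 - α ^ 2) * k := by
      congr 1
      rw [← h.tr j]
      conv_rhs => rw [← h.idem j]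
      simp only [Matrix.trace, Matrix.diag, Matrix.mul_apply, dotProduct]
      refine Finset.sum_congr rfl fun a _ => Finset.sum_congr rfl fun b _ => ?_
      have : P j b a = P j a b := by
        conv_lhs => rw [← h.symm j]
        rfl
      rw [this]

lemma lemB (h : Cfg k α P u) (hα : 0 < α) (x : Fin d → ℝ) :
    ∑ i, (P i *ᵥ x) ⬝ᵥ (P i *ᵥ x) ≤ (1 + α * Fintype.card ι) * (x ⬝ᵥ x) := by
  obtain ⟨s, hs⟩ : ∃ s, s = ∑ i, (P i *ᵥ x) ⬝ᵥ (P i *ᵥ x) := ⟨_, rfl⟩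
  obtain ⟨y, hy⟩ : ∃ y, y = ∑ i, P i *ᵥ x := ⟨_, rfl⟩
  have h1 : x ⬝ᵥ y = s := by
    rw [hy, hs, dotProduct_sum]
    exact Finset.sum_congr rfl fun i _ => by rw [h.dotP, h.PP]
  have hs0 : 0 ≤ s := hs ▸ Finset.sum_nonneg fun i _ => dot_self_nonneg _
  have hterm : ∀ i j, (P i *ᵥ x) ⬝ᵥ (P j *ᵥ x) ≤
      (if i = j then (P i *ᵥ x) ⬝ᵥ (P j *ᵥ x) else 0) +
      (α / 2 * ((P i *ᵥ x) ⬝ᵥ (P i *ᵥ x)) + α / 2 * ((P j *ᵥ x) ⬝ᵥ (P j *ᵥ x))) := by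
    intro i j
    have n1 := dot_self_nonneg (P i *ᵥ x)
    have n2 := dot_self_nonneg (P j *ᵥ x)
    by_cases hij : i = j
    · rw [if_pos hij]
      have : 0 ≤ α / 2 * ((P i *ᵥ x) ⬝ᵥ (P i *ᵥ x)) + α / 2 * ((P j *ᵥ x) ⬝ᵥ (P j *ᵥ x)) := by
        positivity
      linarith
    · rw [if_neg hij]
      have e1 : (P i *ᵥ x) ⬝ᵥ (P j *ᵥ x) = (P i *ᵥ x) ⬝ᵥ (P i *ᵥ (P j *ᵥ x)) := by
        conv_lhs => rw [← h.PP i x]
        rw [h.dotP]
      have e2 : (P i *ᵥ (P j *ᵥ x)) ⬝ᵥ (P i *ᵥ (P j *ᵥ x)) =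
          α ^ 2 * ((P j *ᵥ x) ⬝ᵥ (P j *ᵥ x)) := by
        rw [h.dotP, h.PP]
        conv_lhs =>
          arg 1
          rw [← h.PP j x]
        rw [h.dotP, h.PPP (Ne.symm hij), dotProduct_smul, smul_eq_mul]
      have e3 := dot_self_nonneg (α • (P i *ᵥ x) - P i *ᵥ (P j *ᵥ x))
      rw [sub_dotProduct, dotProduct_sub, dotProduct_sub, smul_dotProduct, smul_dotProduct,
        dotProduct_smul, dotProduct_smul, e2, dotProduct_comm (P i *ᵥ (P j *ᵥ x)) (P i *ᵥ x),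
        ← e1] at e3
      simp only [smul_eq_mul] at e3
      have e4 : 0 ≤ α * (α * ((P i *ᵥ x) ⬝ᵥ (P i *ᵥ x)) - 2 * ((P i *ᵥ x) ⬝ᵥ (P j *ᵥ x)) +
          α * ((P j *ᵥ x) ⬝ᵥ (P j *ᵥ x))) := by nlinarith
      have e5 := nonneg_of_mul_nonneg_right e4 hα
      linarith
  have h2 : y ⬝ᵥ y ≤ (1 + α * Fintype.card ι) * s := by
    rw [hy, sum_dotProduct]
    calc ∑ i, (P i *ᵥ x) ⬝ᵥ ∑ j, P j *ᵥ x = ∑ i, ∑ j, (P i *ᵥ x) ⬝ᵥ (P j *ᵥ x) :=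
          Finset.sum_congr rfl fun i _ => dotProduct_sum _ _ _
      _ ≤ ∑ i, ∑ j, ((if i = j then (P i *ᵥ x) ⬝ᵥ (P j *ᵥ x) else 0) +
      (α / 2 * ((P i *ᵥ x) ⬝ᵥ (P i *ᵥ x)) + α / 2 * ((P j *ᵥ x) ⬝ᵥ (P j *ᵥ x)))) :=
          Finset.sum_le_sum fun i _ => Finset.sum_le_sum fun j _ => hterm i j
      _ = (1 + α * Fintype.card ι) * s := by
          simp only [Finset.sum_add_distrib, Finset.sum_ite_eq, Finset.mem_univ, if_true,
            Finset.sum_const, Finset.card_univ, nsmul_eq_mul, ← Finset.mul_sum, ← hs]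
          ring
  have h3 := cs x y
  rw [h1] at h3
  rw [← hs]
  have hxx := dot_self_nonneg x
  have hn0 : (0 : ℝ) ≤ Fintype.card ι := Nat.cast_nonneg _
  by_cases hsz : s = 0
  · rw [hsz]
    positivity
  · have hspos : 0 < s := lt_of_le_of_ne hs0 (Ne.symm hsz)
    have : s * s ≤ s * ((1 + α * Fintype.card ι) * (x ⬝ᵥ x)) := by nlinarith
    exact le_of_mul_le_mul_left this hspos

/-- decomposition of a sum of squares around the mean -/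
lemma decomp (h : Cfg k α P u) (L : Matrix (Fin d) (Fin d) ℝ) :
    ∑ i, (L *ᵥ h.v i) ⬝ᵥ (L *ᵥ h.v i) = Fintype.card ι * ((L *ᵥ h.w) ⬝ᵥ (L *ᵥ h.w)) +
      ∑ i, (L *ᵥ (h.v i - h.w)) ⬝ᵥ (L *ᵥ (h.v i - h.w)) := by
  have e1 : ∀ i, (L *ᵥ h.v i) ⬝ᵥ (L *ᵥ h.v i) = (L *ᵥ h.w) ⬝ᵥ (L *ᵥ h.w) +
      2 * ((L *ᵥ h.w) ⬝ᵥ (L *ᵥ (h.v i - h.w))) +
      (L *ᵥ (h.v i - h.w)) ⬝ᵥ (L *ᵥ (h.v i - h.w)) := by
    intro i
    rw [Matrix.mulVec_sub]
    simp only [dotProduct_sub, sub_dotProduct]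
    rw [dotProduct_comm (L *ᵥ h.v i) (L *ᵥ h.w)]
    ring
  have e2 : ∑ i, 2 * ((L *ᵥ h.w) ⬝ᵥ (L *ᵥ (h.v i - h.w))) = 0 := by
    rw [← Finset.mul_sum, ← dotProduct_sum]
    have : ∑ i, L *ᵥ (h.v i - h.w) = L *ᵥ ∑ i, (h.v i - h.w) := by
      rw [Matrix.mulVec_sum]
    rw [this, h.sum_z]
    simp
  rw [Finset.sum_congr rfl fun i _ => e1 i, Finset.sum_add_distrib, Finset.sum_add_distrib, e2]
  simp

lemma wle (h : Cfg k α P u) (hα : 0 < α) : h.w ⬝ᵥ h.w ≤ 1 := by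
  have h1 := h.decomp 1
  simp only [Matrix.one_mulVec, h.vv hα] at h1
  have h2 : 0 ≤ ∑ i, (h.v i - h.w) ⬝ᵥ (h.v i - h.w) :=
    Finset.sum_nonneg fun i _ => dot_self_nonneg _
  rw [Finset.sum_const, Finset.card_univ, nsmul_eq_mul, mul_one] at h1
  have hn : (0 : ℝ) < Fintype.card ι := by exact_mod_cast Fintype.card_pos
  nlinarith

lemma lemC (h : Cfg k α P u) (hα : 0 < α) (hα1 : α ≤ 1) (j : ι) :
    α ^ 4 * Fintype.card ι ≤ α ^ 2 * (Fintype.card ι * ((P j *ᵥ h.w) ⬝ᵥ (P j *ᵥ h.w))) +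
      k * (1 - α ^ 2) * k := by
  have h1 := h.decomp (P j)
  have h2 : α ^ 2 * Fintype.card ι ≤ ∑ i, (P j *ᵥ h.v i) ⬝ᵥ (P j *ᵥ h.v i) := by
    have : ∑ i : ι, α ^ 2 ≤ ∑ i, (P j *ᵥ h.v i) ⬝ᵥ (P j *ᵥ h.v i) := by
      apply Finset.sum_le_sum
      intro i _
      by_cases hij : i = j
      · subst hij
        rw [h.Pv, h.vv hα]
        nlinarith
      · rw [h.Pvv hα hij]
    rw [Finset.sum_const, Finset.card_univ, nsmul_eq_mul] at this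
    linarith
  have h3 := h.lemA' hα j
  have h4 : α ^ 2 * (α ^ 2 * Fintype.card ι) ≤ α ^ 2 * (Fintype.card ι *
      ((P j *ᵥ h.w) ⬝ᵥ (P j *ᵥ h.w)) +
      ∑ i, (P j *ᵥ (h.v i - h.w)) ⬝ᵥ (P j *ᵥ (h.v i - h.w))) := by
    apply mul_le_mul_of_nonneg_left _ (sq_nonneg α)
    rw [← h1]
    exact h2
  nlinarith

/-- lower bound for the norm of the mean vector -/
lemma lemD (h : Cfg k α P u) (hα : 0 < α) (hα1 : α ≤ 1) :
    α ^ 4 * Fintype.card ι ≤ α ^ 3 * (Fintype.card ι * (h.w ⬝ᵥ h.w)) + k ^ 2 + 1 := by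
  obtain ⟨n, hn⟩ : ∃ n : ℝ, n = Fintype.card ι := ⟨_, rfl⟩
  have hnpos : 0 < n := by
    rw [hn]
    exact_mod_cast Fintype.card_pos
  have h1 : ∑ j : ι, α ^ 4 * n ≤ ∑ j, (α ^ 2 * (n * ((P j *ᵥ h.w) ⬝ᵥ (P j *ᵥ h.w))) +
      k * (1 - α ^ 2) * k) := by
    rw [hn]
    exact Finset.sum_le_sum fun j _ => h.lemC hα hα1 j
  simp only [Finset.sum_add_distrib, ← Finset.mul_sum, Finset.sum_const,
    Finset.card_univ, nsmul_eq_mul, ← hn] at h1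
  have h2 := h.lemB hα h.w
  rw [← hn] at h2 ⊢
  have h3 := h.wle hα
  obtain ⟨W, hW⟩ : ∃ W, W = h.w ⬝ᵥ h.w := ⟨_, rfl⟩
  obtain ⟨S, hS⟩ : ∃ S, S = ∑ j, (P j *ᵥ h.w) ⬝ᵥ (P j *ᵥ h.w) := ⟨_, rfl⟩
  rw [← hW] at h2 h3 ⊢
  rw [← hS] at h1 h2
  have h4 : n * (α ^ 4 * n) ≤ n * (α ^ 2 * S + k * (1 - α ^ 2) * k) := by linarith
  have h5 := le_of_mul_le_mul_left h4 hnpos
  have h6 : α ^ 2 * S ≤ α ^ 2 * ((1 + α * n) * W) := mul_le_mul_of_nonneg_left h2 (sq_nonneg α)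
  have hk : (0 : ℝ) ≤ (k : ℝ) ^ 2 := sq_nonneg _
  have hα2 : α ^ 2 ≤ 1 := by nlinarith
  have h7 : (k : ℝ) * (1 - α ^ 2) * k ≤ k ^ 2 := by nlinarith [sq_nonneg α]
  have h8 : α ^ 2 * W ≤ 1 := by nlinarith [sq_nonneg α]
  nlinarith

/-- the defect matrix -/
noncomputable def A (h : Cfg k α P u) : Matrix ι ι ℝ :=
  Matrix.of fun i j => if i = j then 0 else α - h.v i ⬝ᵥ h.v j

lemma A_nonneg (h : Cfg k α P u) (hα : 0 < α) (i j : ι) : 0 ≤ h.A i j := by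
  rw [A, Matrix.of_apply]
  split_ifs with hij
  · exact le_rfl
  · linarith [h.vle hα hij]

lemma A_sum (h : Cfg k α P u) (hα : 0 < α) (hα1 : α ≤ 1) :
    α ^ 3 * ∑ i, ∑ j, h.A i j ≤ (k ^ 2 + 2) * Fintype.card ι := by
  obtain ⟨n, hn⟩ : ∃ n : ℝ, n = Fintype.card ι := ⟨_, rfl⟩
  have hnpos : 0 < n := by
    rw [hn]
    exact_mod_cast Fintype.card_pos
  have e1 : ∑ i, ∑ j, h.A i j = α * n ^ 2 - n ^ 2 * (h.w ⬝ᵥ h.w) + (1 - α) * n := by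
    have e2 : ∀ i j, h.A i j = (α - h.v i ⬝ᵥ h.v j) + if i = j then 1 - α else 0 := by
      intro i j
      rw [A, Matrix.of_apply]
      by_cases hij : i = j
      · subst hij
        rw [if_pos rfl, if_pos rfl, h.vv hα]
        ring
      · rw [if_neg hij, if_neg hij, add_zero]
    have e3 : ∑ i, ∑ j, h.v i ⬝ᵥ h.v j = n ^ 2 * (h.w ⬝ᵥ h.w) := by
      have : ∑ i, ∑ j, h.v i ⬝ᵥ h.v j = (∑ i, h.v i) ⬝ᵥ (∑ i, h.v i) := by
        rw [sum_dotProduct]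
        exact Finset.sum_congr rfl fun i _ => (dotProduct_sum _ _ _).symm
      rw [this, ← h.nw, smul_dotProduct, dotProduct_smul, ← hn, smul_eq_mul, smul_eq_mul]
      ring
    rw [Finset.sum_congr rfl fun i _ => Finset.sum_congr rfl fun j _ => e2 i j]
    simp only [Finset.sum_add_distrib, Finset.sum_sub_distrib, Finset.sum_ite_eq,
      Finset.mem_univ, if_true, Finset.sum_const, Finset.card_univ, nsmul_eq_mul, ← hn, e3]
    ring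
  have h1 := h.lemD hα hα1
  rw [← hn] at h1 ⊢
  rw [e1]
  obtain ⟨W, hW⟩ : ∃ W, W = h.w ⬝ᵥ h.w := ⟨_, rfl⟩
  rw [← hW] at h1 ⊢
  have h2 : n * (α ^ 4 * n) ≤ n * (α ^ 3 * (n * W) + k ^ 2 + 1) :=
    mul_le_mul_of_nonneg_left h1 hnpos.le
  have h3 : α ^ 3 * ((1 - α) * n) ≤ n := by
    have hα3 : α ^ 3 ≤ 1 := pow_le_one₀ hα.le hα1
    have : α ^ 3 * (1 - α) ≤ 1 := by
      have : 0 ≤ α ^ 3 := by positivity
      nlinarith
    nlinarith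
  nlinarith

/-- the main bound: `n ≤ 3 d + K` -/
theorem main (h : Cfg k α P u) (hα : 0 < α) (hα1 : α < 1) :
    (Fintype.card ι : ℝ) ≤ 3 * d + (3 / 2 + 3 * (3 * (k ^ 2 + 2) / α ^ 3) ^ 3 / (1 - α) ^ 3) := by
  obtain ⟨T, hT⟩ : ∃ T : ℝ, T = 3 * (k ^ 2 + 2) / α ^ 3 := ⟨_, rfl⟩
  have hTpos : 0 < T := by
    rw [hT]
    positivity
  obtain ⟨n, hn⟩ : ∃ n : ℝ, n = Fintype.card ι := ⟨_, rfl⟩
  -- good rows
  obtain ⟨I, hI⟩ : ∃ I : Finset ι, ∀ i, i ∈ I ↔ ∑ j, h.A i j ≤ T := by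
    classical
    exact ⟨Finset.univ.filter fun i => ∑ j, h.A i j ≤ T, by simp⟩
  have hbad : ((Finset.univ \ I).card : ℝ) * T ≤ ∑ i, ∑ j, h.A i j := by
    have h1 : (Finset.univ \ I).card • T ≤ ∑ i ∈ Finset.univ \ I, ∑ j, h.A i j := by
      apply Finset.card_nsmul_le_sum
      intro i hi
      rw [Finset.mem_sdiff, hI] at hi
      exact (not_le.1 hi.2).le
    rw [nsmul_eq_mul] at h1
    refine h1.trans ?_
    apply Finset.sum_le_sum_of_subset_of_nonneg (Finset.subset_univ _)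
    intro i _ _
    exact Finset.sum_nonneg fun j _ => h.A_nonneg hα i j
  have hsum := h.A_sum hα hα1.le
  rw [← hn] at hsum ⊢
  have hbad' : 3 * ((Finset.univ \ I).card : ℝ) ≤ n := by
    have hα3 : 0 < α ^ 3 := by positivity
    have h1 : α ^ 3 * (((Finset.univ \ I).card : ℝ) * T) ≤ (k ^ 2 + 2) * n :=
      (mul_le_mul_of_nonneg_left hbad hα3.le).trans hsum
    have h2 : α ^ 3 * T = 3 * (k ^ 2 + 2) := by
      rw [hT]
      field_simp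
    have h3 : ((k : ℝ) ^ 2 + 2) * (3 * ((Finset.univ \ I).card : ℝ)) ≤ (k ^ 2 + 2) * n := by
      calc ((k : ℝ) ^ 2 + 2) * (3 * ((Finset.univ \ I).card : ℝ)) =
          α ^ 3 * T * ((Finset.univ \ I).card : ℝ) := by
            rw [h2]
            ring
        _ = α ^ 3 * (((Finset.univ \ I).card : ℝ) * T) := by ring
        _ ≤ _ := h1
    exact le_of_mul_le_mul_left h3 (by positivity)
  have hcard : n = I.card + ((Finset.univ \ I).card : ℝ) := by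
    rw [hn, ← Finset.card_univ, ← Finset.card_sdiff_add_card_eq_card (Finset.subset_univ I)]
    push_cast
    ring
  -- apply the trace lemma to the good rows
  have key := traceLemma (κ := {i // i ∈ I}) (d := d) (Matrix.of fun i : {i // i ∈ I} => h.v i.1)
    (Matrix.of fun i j => h.A i.1 j.1) (1 - α) α T (by linarith) hTpos.le
    (by
      ext i j
      simp only [Matrix.mul_apply, Matrix.of_apply, Matrix.transpose_apply, Matrix.sub_apply,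
        Matrix.add_apply, Matrix.smul_apply, J, smul_eq_mul, mul_one]
      show h.v i.1 ⬝ᵥ h.v j.1 = _
      rw [A, Matrix.of_apply, Matrix.one_apply]
      by_cases hij : i = j
      · subst hij
        rw [if_pos rfl, if_pos rfl, h.vv hα]
        ring
      · rw [if_neg hij, if_neg (fun h' => hij (Subtype.ext h'))]
        ring)
    (fun i j => h.A_nonneg hα i.1 j.1)
    (fun i => by
      rw [Matrix.of_apply, A, Matrix.of_apply, if_pos rfl])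
    (fun i => by
      simp only [Matrix.of_apply]
      calc ∑ j : {i // i ∈ I}, h.A i.1 j.1 = ∑ j ∈ I, h.A i.1 j :=
            Finset.sum_coe_sort I (fun j => h.A i.1 j)
        _ ≤ ∑ j, h.A i.1 j := Finset.sum_le_sum_of_subset_of_nonneg (Finset.subset_univ _)
            fun j _ _ => h.A_nonneg hα i.1 j
        _ ≤ T := (hI i.1).1 i.2)
  rw [Fintype.card_coe] at key
  rw [← hT]
  have e9 : 3 * T ^ 3 / (1 - α) ^ 3 = 3 / 2 * (2 * T ^ 3 / (1 - α) ^ 3) := by ring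
  rw [e9]
  linarith

end Cfg

end Pool.Agent.H2.ISO
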