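import Mathlib

set_option autoImplicit false

namespace Pool.Agent.H2.ISO

/-- `U` and `V` are equi-isoclinic with angle `α`: the orthogonal projection onto `V` maps every
unit vector of `U` to a vector of norm `α`. -/
def EquiIsoclinic {d : ℕ} (α : ℝ) (U V : Submodule ℝ (EuclideanSpace ℝ (Fin d))) : Prop :=
  ∀ u ∈ U, ‖u‖ = 1 → ‖V.starProjection u‖ = α

/-- The sizes of finite sets of `k`-dimensional subspaces of `ℝ^d`, every two of which are
equi-isoclinic with angle `α`. -/
def sizes (k : ℕ) (α : ℝ) (d : ℕ) : Set ℕ :=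
  {n | ∃ F : Finset (Submodule ℝ (EuclideanSpace ℝ (Fin d))), F.card = n ∧
    (∀ U ∈ F, Module.finrank ℝ U = k) ∧ ∀ U ∈ F, ∀ V ∈ F, U ≠ V → EquiIsoclinic α U V}

/-- `N k α d` is the largest number of `k`-dimensional subspaces of `ℝ^d`, every two of which are
equi-isoclinic with angle `α`. -/
noncomputable def N (k : ℕ) (α : ℝ) (d : ℕ) : ℕ := sSup (sizes k α d)

end Pool.Agent.H2.ISO
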