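import Pool.Agent.H2.ISO.Defs
import Pool.Agent.H2.ISO.Core

set_option autoImplicit false

namespace Pool.Agent.H2.ISO

open Matrix
open scoped RealInnerProductSpace

variable {d : ℕ}

abbrev E (d : ℕ) : Type := EuclideanSpace ℝ (Fin d)

/-- matrix of the orthogonal projection -/
noncomputable def pm (U : Submodule ℝ (E d)) : Matrix (Fin d) (Fin d) ℝ :=
  (toEuclideanCLM (n := Fin d) (𝕜 := ℝ)).symm U.starProjection

lemma pm_spec (U : Submodule ℝ (E d)) :
    toEuclideanCLM (n := Fin d) (𝕜 := ℝ) (pm U) = U.starProjection :=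
  (toEuclideanCLM (n := Fin d) (𝕜 := ℝ)).apply_symm_apply _

lemma pm_symm (U : Submodule ℝ (E d)) : (pm U)ᵀ = pm U := by
  have h1 : star (pm U) = pm U := by
    apply EquivLike.injective (toEuclideanCLM (n := Fin d) (𝕜 := ℝ))
    rw [map_star, pm_spec]
    exact isSelfAdjoint_starProjection U
  rwa [Matrix.star_eq_conjTranspose, Matrix.conjTranspose_eq_transpose_of_trivial] at h1

lemma pm_idem (U : Submodule ℝ (E d)) : pm U * pm U = pm U := by
  apply EquivLike.injective (toEuclideanCLM (n := Fin d) (𝕜 := ℝ))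
  rw [map_mul, pm_spec]
  exact U.isIdempotentElem_starProjection

lemma pm_trace (U : Submodule ℝ (E d)) : (pm U).trace = Module.finrank ℝ U := by
  have h1 : LinearMap.IsProj U (U.starProjection : (E d) →ₗ[ℝ] (E d)) :=
    ⟨fun x => U.starProjection_apply_mem x, fun x hx => by
      exact Submodule.starProjection_eq_self_iff.2 hx⟩
  have h2 := h1.trace
  rw [← h2, ← pm_spec U, Matrix.coe_toEuclideanCLM_eq_toEuclideanLin]
  rw [Matrix.toEuclideanLin_eq_toLin, Matrix.trace_toLin_eq]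

lemma proj_inner {α : ℝ} {U V : Submodule ℝ (E d)} (h : EquiIsoclinic α U V) (hα : 0 ≤ α)
    (x : E d) (hx : x ∈ U) : ‖V.starProjection x‖ ^ 2 = α ^ 2 * ‖x‖ ^ 2 := by
  by_cases h0 : x = 0
  · subst h0
    simp
  · have hn : ‖x‖ ≠ 0 := norm_ne_zero_iff.2 h0
    have h1 := h (‖x‖⁻¹ • x) (U.smul_mem _ hx) (by
      rw [norm_smul, norm_inv, norm_norm, inv_mul_cancel₀ hn])
    rw [map_smul, norm_smul, norm_inv, norm_norm] at h1
    have h2 : ‖V.starProjection x‖ = α * ‖x‖ := by
      field_simp at h1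
      linarith
    rw [h2]
    ring

lemma pm_rel {α : ℝ} {U V : Submodule ℝ (E d)} (h : EquiIsoclinic α U V) (hα : 0 ≤ α) :
    pm U * pm V * pm U = α ^ 2 • pm U := by
  apply EquivLike.injective (toEuclideanCLM (n := Fin d) (𝕜 := ℝ))
  rw [map_mul, map_mul, map_smul, pm_spec, pm_spec]
  have hq : ∀ x y : E d, x ∈ U → y ∈ U →
      ⟪V.starProjection x, V.starProjection y⟫ = α ^ 2 * ⟪x, y⟫ := by
    intro x y hx hy
    have h1 := proj_inner h hα (x + y) (U.add_mem hx hy)
    have h2 := proj_inner h hα x hx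
    have h3 := proj_inner h hα y hy
    rw [map_add, norm_add_sq_real, norm_add_sq_real, h2, h3] at h1
    linarith
  ext1 x
  apply ext_inner_right ℝ
  intro y
  have hU : ∀ a b : E d, ⟪U.starProjection a, b⟫ = ⟪a, U.starProjection b⟫ := fun a b =>
    U.starProjection_isSymmetric a b
  have hV : ∀ a b : E d, ⟪V.starProjection a, b⟫ = ⟪a, V.starProjection b⟫ := fun a b =>
    V.starProjection_isSymmetric a b
  have hVV : ∀ a : E d, V.starProjection (V.starProjection a) = V.starProjection a := fun a =>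
    Submodule.starProjection_eq_self_iff.2 (V.starProjection_apply_mem a)
  have hUU : ∀ a : E d, U.starProjection (U.starProjection a) = U.starProjection a := fun a =>
    Submodule.starProjection_eq_self_iff.2 (U.starProjection_apply_mem a)
  show ⟪U.starProjection (V.starProjection (U.starProjection x)), y⟫ =
    ⟪α ^ 2 • U.starProjection x, y⟫
  rw [hU, ← hVV, hV, hq _ _ (U.starProjection_apply_mem x) (U.starProjection_apply_mem y),
    inner_smul_left, ← hU, hUU]
  simp

lemma cfg_of {k : ℕ} {α : ℝ} (hα : 0 ≤ α) (F : Finset (Submodule ℝ (E d)))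
    (hk : ∀ U ∈ F, Module.finrank ℝ U = k) (hF : ∀ U ∈ F, ∀ V ∈ F, U ≠ V → EquiIsoclinic α U V)
    (U₀ : Submodule ℝ (E d)) (hU₀ : U₀ ∈ F) (u : E d) (hu : u ∈ U₀) (hu1 : ‖u‖ = 1) :
    Cfg (ι := {U // U ∈ F \ {U₀}}) k α (fun U => pm U.1) (WithLp.ofLp u) := by
  refine ⟨fun i => pm_symm _, fun i => pm_idem _, ?_, ?_, ?_, ?_⟩
  · intro i
    rw [pm_trace, hk i.1 (Finset.mem_sdiff.1 i.2).1]
  · intro i j hij
    exact pm_rel (hF i.1 (Finset.mem_sdiff.1 i.2).1 j.1 (Finset.mem_sdiff.1 j.2).1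
      (fun h => hij (Subtype.ext h))) hα
  · have h1 : ‖u‖ ^ 2 = 1 := by rw [hu1, one_pow]
    rw [EuclideanSpace.norm_sq_eq] at h1
    rw [dotProduct, ← h1]
    exact Finset.sum_congr rfl fun i _ => by rw [Real.norm_eq_abs, sq_abs, sq]
  · intro i
    have hne : U₀ ≠ i.1 := by
      intro h
      exact (Finset.mem_sdiff.1 i.2).2 (Finset.mem_singleton.2 h.symm)
    have h1 := hF U₀ hU₀ i.1 (Finset.mem_sdiff.1 i.2).1 hne u hu hu1
    rw [← inner_toEuclideanCLM, pm_spec]
    have hVV : i.1.starProjection (i.1.starProjection u) = i.1.starProjection u :=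
      Submodule.starProjection_eq_self_iff.2 (i.1.starProjection_apply_mem u)
    have hV : ⟪i.1.starProjection u, i.1.starProjection u⟫ =
        ⟪u, i.1.starProjection (i.1.starProjection u)⟫ := i.1.starProjection_isSymmetric u _
    rw [hVV] at hV
    rw [← hV, real_inner_self_eq_norm_sq, h1]

/-- the bound for `0 < α < 1` -/
lemma bound_mid {k : ℕ} (hk1 : 1 ≤ k) {α : ℝ} (hα : 0 < α) (hα1 : α < 1)
    (F : Finset (Submodule ℝ (E d)))
    (hk : ∀ U ∈ F, Module.finrank ℝ U = k)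
    (hF : ∀ U ∈ F, ∀ V ∈ F, U ≠ V → EquiIsoclinic α U V) :
    (F.card : ℝ) ≤ 3 * d + (5 / 2 + 3 * (3 * (k ^ 2 + 2) / α ^ 3) ^ 3 / (1 - α) ^ 3) := by
  have hpos : 0 ≤ 3 * (3 * ((k : ℝ) ^ 2 + 2) / α ^ 3) ^ 3 / (1 - α) ^ 3 := by
    have : 0 < 1 - α := by linarith
    positivity
  have hd : (0 : ℝ) ≤ d := Nat.cast_nonneg d
  rcases F.eq_empty_or_nonempty with rfl | ⟨U₀, hU₀⟩
  · simp only [Finset.card_empty, Nat.cast_zero]
    linarith
  have hcard : (F \ {U₀}).card = F.card - 1 := by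
    rw [Finset.card_sdiff_of_subset (by simpa using hU₀), Finset.card_singleton]
  have hFpos : 1 ≤ F.card := Finset.card_pos.2 ⟨U₀, hU₀⟩
  have hFc : (F.card : ℝ) = (F \ {U₀}).card + 1 := by
    rw [hcard]
    push_cast [hFpos]
    ring
  rcases (F \ {U₀}).eq_empty_or_nonempty with h0 | ⟨U₁, hU₁⟩
  · rw [hFc, h0, Finset.card_empty]
    push_cast
    linarith
  -- a unit vector of `U₀`
  have hnt : ∃ x : U₀, x ≠ 0 := by
    have : 0 < Module.finrank ℝ U₀ := by
      rw [hk U₀ hU₀]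
      omega
    have := Module.finrank_pos_iff.1 this
    exact exists_ne 0
  obtain ⟨x, hx⟩ := hnt
  have hx0 : (x : E d) ≠ 0 := fun h => hx (Subtype.ext h)
  have hxn : ‖(x : E d)‖ ≠ 0 := norm_ne_zero_iff.2 hx0
  have cfg := cfg_of hα.le F hk hF U₀ hU₀ (‖(x : E d)‖⁻¹ • (x : E d)) (U₀.smul_mem _ x.2) (by
    rw [norm_smul, norm_inv, norm_norm, inv_mul_cancel₀ hxn])
  have : Nonempty {U // U ∈ F \ {U₀}} := ⟨⟨U₁, hU₁⟩⟩
  have h := cfg.main hα hα1
  rw [Fintype.card_coe] at h
  rw [hFc]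
  linarith

/-- the bound for `α = 1` -/
lemma bound_one {k : ℕ} (F : Finset (Submodule ℝ (E d)))
    (hk : ∀ U ∈ F, Module.finrank ℝ U = k)
    (hF : ∀ U ∈ F, ∀ V ∈ F, U ≠ V → EquiIsoclinic 1 U V) : F.card ≤ 1 := by
  rw [Finset.card_le_one]
  intro U hU V hV
  by_contra hne
  have h := hF U hU V hV hne
  have hsub : U ≤ V := by
    intro x hx
    have h1 := proj_inner h zero_le_one x hx
    have h2 : V.starProjection x = x := by
      have h3 : ‖V.starProjection x - x‖ ^ 2 = 0 := by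
        rw [norm_sub_sq_real]
        have h4 : ⟪V.starProjection x, x⟫ = ‖V.starProjection x‖ ^ 2 := by
          have hVV : V.starProjection (V.starProjection x) = V.starProjection x :=
            Submodule.starProjection_eq_self_iff.2 (V.starProjection_apply_mem x)
          have hV : ⟪V.starProjection (V.starProjection x), x⟫ =
            ⟪V.starProjection x, V.starProjection x⟫ := V.starProjection_isSymmetric _ _
          rw [hVV] at hV
          rw [hV, real_inner_self_eq_norm_sq]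
        rw [h4, h1]
        ring
      have h5 := pow_eq_zero_iff (two_ne_zero) |>.1 h3
      exact sub_eq_zero.1 (norm_eq_zero.1 h5)
    rw [← h2]
    exact V.starProjection_apply_mem x
  exact hne (Submodule.eq_of_le_of_finrank_eq hsub (by rw [hk U hU, hk V hV]))

/-- the bound for `α = 0` -/
lemma bound_zero {k : ℕ} (hk1 : 1 ≤ k) (F : Finset (Submodule ℝ (E d)))
    (hk : ∀ U ∈ F, Module.finrank ℝ U = k)
    (hF : ∀ U ∈ F, ∀ V ∈ F, U ≠ V → EquiIsoclinic 0 U V) : F.card ≤ d := by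
  -- choose a nonzero vector in each member; these are orthogonal
  have hnt : ∀ U : {U // U ∈ F}, ∃ x : E d, x ∈ U.1 ∧ x ≠ 0 := by
    intro U
    have : 0 < Module.finrank ℝ U.1 := by
      rw [hk U.1 U.2]
      omega
    have := Module.finrank_pos_iff.1 this
    obtain ⟨x, hx⟩ := exists_ne (0 : U.1)
    exact ⟨x.1, x.2, fun h => hx (Subtype.ext h)⟩
  choose x hxU hx0 using hnt
  have hort : Pairwise fun U V => ⟪x U, x V⟫ = 0 := by
    intro U V hne
    have h := hF U.1 U.2 V.1 V.2 (fun h => hne (Subtype.ext h))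
    have h1 := proj_inner h le_rfl (x U) (hxU U)
    have h2 : V.1.starProjection (x U) = 0 := by
      have : ‖V.1.starProjection (x U)‖ ^ 2 = 0 := by
        rw [h1]
        ring
      exact norm_eq_zero.1 (pow_eq_zero_iff (two_ne_zero) |>.1 this)
    have hV : ⟪V.1.starProjection (x U), x V⟫ = ⟪x U, V.1.starProjection (x V)⟫ :=
      V.1.starProjection_isSymmetric _ _
    rw [h2, inner_zero_left, Submodule.starProjection_eq_self_iff.2 (hxU V)] at hV
    exact hV.symm
  have hli := linearIndependent_of_ne_zero_of_inner_eq_zero (𝕜 := ℝ) hx0 hort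
  have := hli.fintype_card_le_finrank
  rw [Fintype.card_coe, finrank_euclideanSpace_fin] at this
  exact this

/-- the bound in all cases -/
lemma bound (k : ℕ) (hk1 : 1 ≤ k) (α : ℝ) (hα : 0 ≤ α) (hα1 : α ≤ 1) : ∃ K : ℝ, 0 ≤ K ∧
    ∀ d : ℕ, ∀ n ∈ sizes k α d, (n : ℝ) ≤ 3 * d + K := by
  rcases hα.eq_or_lt with rfl | hα
  · refine ⟨0, le_rfl, ?_⟩
    rintro d n ⟨F, rfl, hk, hF⟩
    have := bound_zero hk1 F hk hF
    have h1 : (F.card : ℝ) ≤ d := by exact_mod_cast this
    have h2 : (0 : ℝ) ≤ d := Nat.cast_nonneg d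
    linarith
  · rcases hα1.eq_or_lt with rfl | hα1
    · refine ⟨1, zero_le_one, ?_⟩
      rintro d n ⟨F, rfl, hk, hF⟩
      have := bound_one F hk hF
      have h1 : (F.card : ℝ) ≤ 1 := by exact_mod_cast this
      have h2 : (0 : ℝ) ≤ d := Nat.cast_nonneg d
      linarith
    · refine ⟨(5 / 2 + 3 * (3 * (k ^ 2 + 2) / α ^ 3) ^ 3 / (1 - α) ^ 3), ?_, ?_⟩
      · have : 0 < 1 - α := by linarith
        positivity
      · rintro d n ⟨F, rfl, hk, hF⟩
        exact bound_mid hk1 hα hα1 F hk hF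

end Pool.Agent.H2.ISO
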