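import Mathlib

set_option autoImplicit false

namespace Pool.Agent.H2.ISO

open Matrix

/-- all ones matrix -/
def J (κ : Type) : Matrix κ κ ℝ := Matrix.of fun _ _ => 1

variable {κ : Type} [Fintype κ] [DecidableEq κ]

omit [DecidableEq κ] in
lemma J_mul_mul_J (A : Matrix κ κ ℝ) : J κ * A * J κ = (∑ i, ∑ j, A i j) • J κ := by
  ext a b
  simp only [Matrix.mul_apply, J, Matrix.of_apply, one_mul, mul_one, Matrix.smul_apply,
    smul_eq_mul]
  rw [Finset.sum_comm]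

omit [DecidableEq κ] in
lemma trace_J_mul (A : Matrix κ κ ℝ) : (J κ * A).trace = ∑ i, ∑ j, A i j := by
  simp only [Matrix.trace, Matrix.diag, Matrix.mul_apply, J, Matrix.of_apply, one_mul]
  rw [Finset.sum_comm]

omit [DecidableEq κ] in
lemma J_transpose : (J κ)ᵀ = J κ := rfl

lemma J_mul_J : J κ * J κ = (Fintype.card κ : ℝ) • J κ := by
  have := J_mul_mul_J (1 : Matrix κ κ ℝ)
  rw [Matrix.mul_one] at this
  rw [this]
  congr 1
  simp [Matrix.one_apply]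

omit [DecidableEq κ] in
/-- row sums of products -/
lemma sum_mul_le (A B : Matrix κ κ ℝ) (hA0 : ∀ i j, 0 ≤ A i j) (S T : ℝ)
    (hA : ∀ i, ∑ j, A i j ≤ S) (hB : ∀ i, ∑ j, B i j ≤ T) (hT : 0 ≤ T) (i : κ) :
    ∑ j, (A * B) i j ≤ S * T := by
  have h1 : ∑ j, (A * B) i j = ∑ k, A i k * ∑ j, B k j := by
    simp only [Matrix.mul_apply]
    rw [Finset.sum_comm]
    simp only [Finset.mul_sum]
  rw [h1]
  calc ∑ k, A i k * ∑ j, B k j ≤ ∑ k, A i k * T :=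
        Finset.sum_le_sum fun k _ => mul_le_mul_of_nonneg_left (hB k) (hA0 i k)
    _ = (∑ k, A i k) * T := by rw [Finset.sum_mul]
    _ ≤ S * T := mul_le_mul_of_nonneg_right (hA i) hT

omit [DecidableEq κ] in
lemma mul_nonneg' (A B : Matrix κ κ ℝ) (hA0 : ∀ i j, 0 ≤ A i j) (hB0 : ∀ i j, 0 ≤ B i j) :
    ∀ i j, 0 ≤ (A * B) i j := by
  intro i j
  rw [Matrix.mul_apply]
  exact Finset.sum_nonneg fun k _ => mul_nonneg (hA0 i k) (hB0 k j)

/-- the cubic trace inequality -/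
lemma cubic {d : ℕ} (Y : Matrix κ (Fin d) ℝ) (lam : ℝ) (hlam : 0 ≤ lam) :
    3 * lam * (Y * Yᵀ * (Y * Yᵀ)).trace - (Y * Yᵀ * (Y * Yᵀ) * (Y * Yᵀ)).trace ≤
      4 * lam ^ 3 * d := by
  obtain ⟨M, hM⟩ : ∃ M, M = Yᵀ * Y := ⟨_, rfl⟩
  have hMpsd : M.PosSemidef := by
    rw [hM, ← Matrix.conjTranspose_eq_transpose_of_trivial]
    exact Matrix.posSemidef_conjTranspose_mul_self Y
  have h1 : (M + lam • 1).PosSemidef := by
    refine hMpsd.add ?_
    exact Matrix.PosSemidef.one.smul hlam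
  have h2 : ((M - (2 * lam) • (1 : Matrix (Fin d) (Fin d) ℝ)))ᴴ = M - (2 * lam) • 1 := by
    rw [Matrix.conjTranspose_sub, hMpsd.isHermitian.eq]
    simp
  have h3 := (h1.conjTranspose_mul_mul_same (M - (2 * lam) • (1 : Matrix (Fin d) (Fin d) ℝ))).trace_nonneg
  rw [h2] at h3
  have h4 : (M - (2 * lam) • (1 : Matrix (Fin d) (Fin d) ℝ)) * (M + lam • 1) *
      (M - (2 * lam) • 1) = M * M * M - (3 * lam) • (M * M) + (4 * lam ^ 3) • 1 := by
    simp only [Matrix.mul_sub, Matrix.sub_mul, Matrix.mul_add, Matrix.add_mul, Matrix.mul_smul,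
      Matrix.smul_mul, Matrix.mul_one, Matrix.one_mul]
    module
  rw [h4] at h3
  have h5 : (M * M).trace = (Y * Yᵀ * (Y * Yᵀ)).trace := by
    rw [hM]
    rw [show Yᵀ * Y * (Yᵀ * Y) = Yᵀ * (Y * Yᵀ * Y) by simp only [Matrix.mul_assoc]]
    rw [Matrix.trace_mul_comm]
    simp only [Matrix.mul_assoc]
  have h6 : (M * M * M).trace = (Y * Yᵀ * (Y * Yᵀ) * (Y * Yᵀ)).trace := by
    rw [hM]
    rw [show Yᵀ * Y * (Yᵀ * Y) * (Yᵀ * Y) = Yᵀ * (Y * Yᵀ * Y * Yᵀ * Y) by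
      simp only [Matrix.mul_assoc]]
    rw [Matrix.trace_mul_comm]
    simp only [Matrix.mul_assoc]
  rw [Matrix.trace_add, Matrix.trace_sub, Matrix.trace_smul, Matrix.trace_smul, h5, h6,
    Matrix.trace_one, Fintype.card_fin, smul_eq_mul, smul_eq_mul] at h3
  linarith

omit [DecidableEq κ] in
lemma trcube (A Z : Matrix κ κ ℝ) (c : ℝ) : ((A - c • Z) * (A - c • Z) * (A - c • Z)).trace =
    (A * A * A).trace - 3 * c * (Z * A * A).trace + 3 * c ^ 2 * (Z * Z * A).trace -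
      c ^ 3 * (Z * Z * Z).trace := by
  simp only [Matrix.sub_mul, Matrix.mul_sub, Matrix.smul_mul, Matrix.mul_smul, Matrix.trace_sub,
    Matrix.trace_smul, smul_eq_mul]
  rw [Matrix.trace_mul_cycle A A Z, Matrix.trace_mul_cycle A Z A, Matrix.trace_mul_cycle A A Z,
    Matrix.trace_mul_cycle A Z Z, Matrix.trace_mul_cycle Z A Z]
  ring

lemma traceLemma {d : ℕ} (V : Matrix κ (Fin d) ℝ) (A : Matrix κ κ ℝ) (lam al T : ℝ)
    (hlam : 0 < lam) (hT0 : 0 ≤ T)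
    (hG : V * Vᵀ = lam • (1 : Matrix κ κ ℝ) + al • J κ - A) (hA0 : ∀ i j, 0 ≤ A i j)
    (hdiag : ∀ i, A i i = 0) (hT : ∀ i, ∑ j, A i j ≤ T) :
    (Fintype.card κ : ℝ) ≤ 1 + 2 * d + 2 * T ^ 3 / lam ^ 3 := by
  by_cases hn : Fintype.card κ = 0
  · rw [hn]
    have : 0 ≤ 2 * T ^ 3 / lam ^ 3 := by positivity
    have : (0 : ℝ) ≤ d := Nat.cast_nonneg d
    push_cast
    linarith
  obtain ⟨n, hnn⟩ : ∃ n : ℝ, n = Fintype.card κ := ⟨_, rfl⟩
  have hnpos : 0 < n := by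
    rw [hnn]
    exact_mod_cast Nat.pos_of_ne_zero hn
  rw [← hnn]
  have hJJ : J κ * J κ = n • J κ := by rw [J_mul_J, hnn]
  obtain ⟨Q, hQ⟩ : ∃ Q : Matrix κ κ ℝ, Q = 1 - n⁻¹ • J κ := ⟨_, rfl⟩
  have hQJ : Q * J κ = 0 := by
    rw [hQ, Matrix.sub_mul, Matrix.one_mul, Matrix.smul_mul, hJJ, smul_smul,
      inv_mul_cancel₀ hnpos.ne', one_smul, sub_self]
  have hJQ : J κ * Q = 0 := by
    rw [hQ, Matrix.mul_sub, Matrix.mul_one, Matrix.mul_smul, hJJ, smul_smul,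
      inv_mul_cancel₀ hnpos.ne', one_smul, sub_self]
  have hQQ : Q * Q = Q := by
    conv_lhs => rw [hQ, Matrix.sub_mul, Matrix.one_mul, Matrix.smul_mul, ← hQ, hJQ]
    simp
  have hQt : Qᵀ = Q := by
    rw [hQ, Matrix.transpose_sub, Matrix.transpose_one, Matrix.transpose_smul, J_transpose]
  have hcub := cubic (Q * V) lam hlam.le
  have hC : Q * V * (Q * V)ᵀ = lam • Q - Q * A * Q := by
    rw [Matrix.transpose_mul, hQt]
    rw [show Q * V * (Vᵀ * Q) = Q * (V * Vᵀ) * Q by simp only [Matrix.mul_assoc], hG]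
    rw [Matrix.mul_sub, Matrix.mul_add, Matrix.sub_mul, Matrix.add_mul, Matrix.mul_smul,
      Matrix.mul_smul, Matrix.mul_one, hQJ, Matrix.smul_mul, hQQ]
    simp
  rw [hC] at hcub
  have e1 : (lam • Q - Q * A * Q) * (lam • Q - Q * A * Q) =
      lam ^ 2 • Q - (2 * lam) • (Q * A * Q) + Q * A * Q * A * Q := by
    simp only [Matrix.sub_mul, Matrix.mul_sub, Matrix.smul_mul, Matrix.mul_smul, hQQ]
    rw [show Q * (Q * A * Q) = Q * A * Q by simp only [← Matrix.mul_assoc, hQQ],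
      show Q * A * Q * Q = Q * A * Q by simp only [Matrix.mul_assoc, hQQ],
      show Q * A * Q * (Q * A * Q) = Q * A * (Q * Q) * A * Q by simp only [Matrix.mul_assoc], hQQ]
    module
  have e2 : (lam ^ 2 • Q - (2 * lam) • (Q * A * Q) + Q * A * Q * A * Q) *
      (lam • Q - Q * A * Q) = lam ^ 3 • Q - (3 * lam ^ 2) • (Q * A * Q) +
        (3 * lam) • (Q * A * Q * A * Q) - Q * A * Q * A * Q * A * Q := by
    simp only [Matrix.sub_mul, Matrix.mul_sub, Matrix.smul_mul, Matrix.mul_smul, hQQ,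
      Matrix.add_mul]
    rw [show Q * (Q * A * Q) = Q * A * Q by simp only [← Matrix.mul_assoc, hQQ],
      show Q * A * Q * Q = Q * A * Q by simp only [Matrix.mul_assoc, hQQ],
      show Q * A * Q * A * Q * Q = Q * A * Q * A * Q by simp only [Matrix.mul_assoc, hQQ],
      show Q * A * Q * (Q * A * Q) = Q * A * (Q * Q) * A * Q by simp only [Matrix.mul_assoc],
      show Q * A * Q * A * Q * (Q * A * Q) = Q * A * Q * A * (Q * Q) * A * Q by
        simp only [Matrix.mul_assoc], hQQ]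
    module
  rw [e1, e2] at hcub
  simp only [Matrix.trace_add, Matrix.trace_sub, Matrix.trace_smul, smul_eq_mul] at hcub
  -- traces
  have t0 : Q.trace = n - 1 := by
    rw [hQ, Matrix.trace_sub, Matrix.trace_one, Matrix.trace_smul, smul_eq_mul, ← hnn]
    have : (J κ).trace = n := by
      rw [hnn]
      simp [Matrix.trace, J]
    rw [this, inv_mul_cancel₀ hnpos.ne']
  obtain ⟨s1, hs1⟩ : ∃ s1, s1 = ∑ i, ∑ j, A i j := ⟨_, rfl⟩
  obtain ⟨s2, hs2⟩ : ∃ s2, s2 = ∑ i, ∑ j, (A * A) i j := ⟨_, rfl⟩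
  obtain ⟨s3, hs3⟩ : ∃ s3, s3 = ∑ i, ∑ j, (A * A * A) i j := ⟨_, rfl⟩
  have t1 : (Q * A * Q).trace = - (n⁻¹ * s1) := by
    rw [Matrix.trace_mul_comm, ← Matrix.mul_assoc, hQQ, hQ, Matrix.sub_mul, Matrix.one_mul,
      Matrix.trace_sub, Matrix.smul_mul, Matrix.trace_smul, trace_J_mul, ← hs1]
    have : A.trace = 0 := by
      simp [Matrix.trace, hdiag]
    rw [this, smul_eq_mul]
    ring
  have t3 : (Q * A * Q * A * Q * A * Q).trace = (A * A * A).trace - 3 * n⁻¹ * s3 +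
      3 * n⁻¹ ^ 2 * (s1 * s2) - n⁻¹ ^ 3 * s1 ^ 3 := by
    rw [Matrix.trace_mul_comm]
    have f1 : Q * (Q * A * Q * A * Q * A) = (Q * A) * (Q * A) * (Q * A) := by
      rw [show Q * (Q * A * Q * A * Q * A) = (Q * Q) * A * Q * A * Q * A by
        simp only [Matrix.mul_assoc], hQQ]
      simp only [Matrix.mul_assoc]
    rw [f1]
    have f2 : Q * A = A - n⁻¹ • (J κ * A) := by
      rw [hQ, Matrix.sub_mul, Matrix.one_mul, Matrix.smul_mul]
    rw [f2]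
    obtain ⟨Z, hZ⟩ : ∃ Z, Z = J κ * A := ⟨_, rfl⟩
    have hZZ : Z * Z = s1 • Z := by
      rw [hZ, ← Matrix.mul_assoc, J_mul_mul_J, Matrix.smul_mul, hs1]
    rw [← hZ, trcube, hZZ]
    simp only [Matrix.smul_mul, Matrix.trace_smul, smul_eq_mul, hZZ]
    rw [hZ, trace_J_mul, Matrix.mul_assoc (J κ), trace_J_mul, Matrix.mul_assoc (J κ),
      trace_J_mul, ← hs1, ← hs2, ← hs3]
    ring
  have b1 : 0 ≤ s1 := by
    rw [hs1]
    exact Finset.sum_nonneg fun i _ => Finset.sum_nonneg fun j _ => hA0 i j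
  have b1' : n⁻¹ * s1 ≤ T := by
    rw [inv_mul_le_iff₀ hnpos, hs1]
    calc ∑ i, ∑ j, A i j ≤ ∑ i : κ, T := Finset.sum_le_sum fun i _ => hT i
      _ = n * T := by rw [Finset.sum_const, Finset.card_univ, nsmul_eq_mul, hnn]
  have hAA0 := mul_nonneg' A A hA0 hA0
  have b2 : 0 ≤ s2 := by
    rw [hs2]
    exact Finset.sum_nonneg fun i _ => Finset.sum_nonneg fun j _ => hAA0 i j
  have b3 : n⁻¹ * s3 ≤ T ^ 3 := by
    rw [inv_mul_le_iff₀ hnpos, hs3]
    calc ∑ i, ∑ j, (A * A * A) i j ≤ ∑ i : κ, T ^ 3 := by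
          apply Finset.sum_le_sum
          intro i _
          have h2 : ∀ i, ∑ j, (A * A) i j ≤ T * T := sum_mul_le A A hA0 T T hT hT hT0
          calc ∑ j, (A * A * A) i j ≤ T * T * T := sum_mul_le (A * A) A hAA0 (T * T) T h2 hT hT0 i
            _ = T ^ 3 := by ring
      _ = n * T ^ 3 := by rw [Finset.sum_const, Finset.card_univ, nsmul_eq_mul, hnn]
  have b4 : 0 ≤ (A * A * A).trace := by
    have := mul_nonneg' (A * A) A hAA0 hA0
    exact Finset.sum_nonneg fun i _ => this i i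
  have b5 : 0 ≤ n⁻¹ ^ 2 * (s1 * s2) := by positivity
  have b6 : n⁻¹ ^ 3 * s1 ^ 3 ≤ T ^ 3 := by
    rw [← mul_pow]
    exact pow_le_pow_left₀ (by positivity) b1' 3
  have b7 : 0 ≤ lam ^ 2 * (n⁻¹ * s1) := by positivity
  rw [t0, t1, t3] at hcub
  have hfin : 2 * lam ^ 3 * (n - 1) ≤ 4 * lam ^ 3 * d + 4 * T ^ 3 := by
    have b3' : n⁻¹ * s3 ≤ T ^ 3 := b3
    nlinarith
  have hl3 : 0 < lam ^ 3 := by positivity
  have : n - 1 - 2 * d ≤ 2 * T ^ 3 / lam ^ 3 := by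
    rw [le_div_iff₀ hl3]
    nlinarith
  linarith

end Pool.Agent.H2.ISO
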